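import Pool.Agent.P.MP_78d079_nt.XbMain

/-- For `0 < ε ≤ 1` there are `C` and `B` such that: if the sum of the divisors of `n` is `k n`
and at most `s` primes divide `n` to an exponent above `E`, then `k` is at most
`C (log (E + 2) + (log (s + 1)) ^ B)` times the product of `(1 - 1 / p)⁻¹` over the primes `p` of
`n`, with exponent `a`, for which the least prime factor of `a + 1` exceeds `(log p) ^ (1 - ε)`. -/
theorem Pool.Agent.Results.MP_78d079_nt.ExponentBound.result (ε : ℝ) (hε : 0 < ε) (hε1 : ε ≤ 1) :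
    ∃ (C : ℝ) (B : ℕ), ∀ n k E s : ℕ, 0 < n → ∑ d ∈ n.divisors, d = k * n →
      (n.primeFactors.filter (fun p => E < n.factorization p)).card ≤ s →
      (k : ℝ) ≤ C * (Real.log ((E : ℝ) + 2) + Real.log ((s : ℝ) + 1) ^ B) *
        ∏ p ∈ n.primeFactors.filter (fun p : ℕ =>
          Real.log p ^ (1 - ε) < ((n.factorization p + 1).minFac : ℝ)), (1 - 1 / (p : ℝ))⁻¹ :=
  Pool.Agent.P.MP_78d079_nt.Xb.main hε hε1
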