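import Pool.Agent.K.MP_78d079_nt.C0

/-- For every `ε > 0` and all large `n`, with `σ` the sum of the divisors of `n` and
`g = gcd (n, σ)`, one has `σ / n ≤ e^γ (log log (n / √g) + ε)`. For a multiperfect `n` one has
`g = n`, so the multiplicity is at most `e^γ (log log n - log 2 + ε)`. -/
theorem Pool.Agent.Results.MP_78d079_nt.GronwallGap.result (ε : ℝ) (hε : 0 < ε) :
    ∃ N : ℕ, ∀ n : ℕ, N ≤ n →
      ((∑ d ∈ n.divisors, d : ℕ) : ℝ) / n ≤ Real.exp Real.eulerMascheroniConstant *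
        (Real.log (Real.log (n / √(Nat.gcd n (∑ d ∈ n.divisors, d) : ℕ))) + ε) :=
  Pool.Agent.P.MP_78d079_nt.main hε
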